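import Mathlib
import Pool.Agent.Q52.Lex.Order
import Pool.Agent.Q52.Lex.Strand
import Pool.Agent.Q52.Lex.Depth

set_option autoImplicit false

/-!
# Squarefree lexsegment ideals of depth `q - 1`

A squarefree monomial of degree `q` in the variables `x_0, …, x_m` is given by its support, a
subset with `q` elements of `Fin (m + 1)`.
-/

namespace Pool.Agent.Results.MP_805877_ag.LexsegmentDepth

open MvPolynomial Q52.Lex

/-- Let `u`, `v` be the supports of squarefree monomials of degree `q` in `n = m + 1` variables,
where the first variable divides `u` and does not divide `v`, and let `I` be the ideal generated by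
the squarefree monomials `w` of degree `q` with `u ≥ w ≥ v`. Then the depth of `S / I` with respect
to the ideal generated by the variables is `q - 1` if and only if `w₀ ≥ v`. -/
theorem result (k : Type*) [Field k] (m q : ℕ) (hq : 1 ≤ q) (u v : Finset (Fin (m + 1)))
    (hu : u.card = q) (hv : v.card = q) (h0 : 0 ∈ u) (h0v : 0 ∉ v) :
    HasDepth (Ideal.span (Set.range (X : Fin (m + 1) → MvPolynomial (Fin (m + 1)) k)))
      (MvPolynomial (Fin (m + 1)) k ⧸ sqIdeal k (seg q u v)) (q - 1) ↔ LexGE (shift u) v :=
  hasDepth_iff hq hu hv h0 h0v

end Pool.Agent.Results.MP_805877_ag.LexsegmentDepth
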